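import Pool.Agent.H55.CU.Targets

set_option autoImplicit false

open MeasureTheory ProbabilityTheory Filter Topology
open scoped ENNReal
open Pool.Agent.H95 Pool.Agent.H95.Cop Pool.Agent.H96.Cop Pool.Agent.H55.CU

namespace Pool.Agent.H36.CU

theorem pf_NEG (hBS0 : T_BS0) (hITR : T_ITR) (hFSA : T_FSA) (hFSB : T_FSB) (hPQB : T_PQB)
    (hFRC : T_FRC) (hTHP : T_THP) : T_NEG := by
  intro K hK0 α c n0 hα hα50 hc hKB hn01 μ _ hexp lam h b k S hk hn0k hn0c hS1 hS2 hb0 hbk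
    hMo1 hMo3 hMok f hf
  have hid : Integrable (fun z : ℝ => z) μ := integrable_id' μ hexp
  have hHS0 := hBS0 K hK0 (chargeLaw μ lam h) α c n0 k b hα hα50 hc hKB hk hn0k hn0c hb0 hbk hMo1
  have hHSS := hITR K (chargeLaw μ lam h) α c n0 k S hα hα50 hc hKB hk hn0k hS2 hMo3 hHS0
  obtain ⟨hθ2, hθ1, -, -, -⟩ := hTHP α S hα (hα50.trans (by norm_num))
  obtain ⟨θ, hθd⟩ : ∃ θ : ℝ, θ = th α S := ⟨_, rfl⟩
  rw [← hθd] at hθ2 hθ1
  have hθ0 : 0 < θ := by linarith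
  have hMoe := Mo_eq μ hexp lam h θ
  have hMo0 : Mo (chargeLaw μ lam h) θ ≠ 0 := by
    rw [hMoe]
    exact (ENNReal.ofReal_pos.2 (Real.exp_pos _)).ne'
  have hMoT : Mo (chargeLaw μ lam h) θ ≠ ∞ := by
    rw [hMoe]
    exact ENNReal.ofReal_ne_top
  have hk0 : (0 : ℝ) < k := by exact_mod_cast hk
  have hMole : Mo (chargeLaw μ lam h) θ ≤ 1 := by
    rw [← hθd, hMoe, ← ENNReal.ofReal_pow (Real.exp_pos _).le, ← Real.exp_nat_mul,
      ENNReal.ofReal_le_ofReal_iff (Real.exp_pos _).le, Real.exp_le_exp] at hMok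
    rw [hMoe, ENNReal.ofReal_le_one, Real.exp_le_one_iff]
    by_contra hcon
    push Not at hcon
    have h1 := mul_pos hk0 hcon
    have h2 : 0 < 2 ^ 40 * α := by positivity
    linarith
  have hkL : k ≤ k * 2 ^ S := Nat.le_mul_of_pos_right k (by positivity)
  have hZ : 0 < ZZ α c k := by
    unfold ZZ
    positivity
  have hZθ : 0 < ZZ α c k ^ θ := Real.rpow_pos_of_pos hZ θ
  have hF := hFSA K (chargeLaw μ lam h) α c k S hα hα50 hc hk hS2 hHSS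
  obtain ⟨hG, hΓ⟩ := hFSB K (chargeLaw μ lam h) α c n0 k S hα hα50 hc hKB hk hn0k hS1 hMok
  rw [← hθd] at hF hΓ
  obtain ⟨C, hC, hPQ⟩ := hPQB K (chargeLaw μ lam h) k (k * 2 ^ S) hk (fun n hn => by
    refine lt_of_lt_of_le ?_ (hKB n (hn0k.trans hn)).1
    have hn0 : (0 : ℝ) < n := by exact_mod_cast lt_of_lt_of_le hk hn
    positivity) θ hθ0 hMo0 hMoT
  have hF' : ∀ n, ∑ a ∈ Finset.range n, ∫⁻ x, PQ K k (k * 2 ^ S) a x ^ θ
      ∂(iid (chargeLaw μ lam h)) ≤ C * ENNReal.ofReal (ZZ α c k ^ θ / 4) := by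
    intro n
    calc ∑ a ∈ Finset.range n, ∫⁻ x, PQ K k (k * 2 ^ S) a x ^ θ ∂(iid (chargeLaw μ lam h))
        ≤ ∑ a ∈ Finset.range n, C * ∫⁻ x, PL K k (k * 2 ^ S) (a + 2) x ^ θ
          ∂(iid (chargeLaw μ lam h)) := Finset.sum_le_sum fun a _ => hPQ a
      _ = C * ∑ a ∈ Finset.range n, ∫⁻ x, PL K k (k * 2 ^ S) (a + 2) x ^ θ
          ∂(iid (chargeLaw μ lam h)) := by rw [Finset.mul_sum]
      _ ≤ C * ∑ a ∈ Finset.range (n + 2), ∫⁻ x, PL K k (k * 2 ^ S) a x ^ θ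
          ∂(iid (chargeLaw μ lam h)) := by
          refine mul_le_mul' le_rfl ?_
          rw [Finset.sum_range_succ', Finset.sum_range_succ', add_assoc]
          exact le_self_add
      _ ≤ C * ENNReal.ofReal (ZZ α c k ^ θ / 4) := mul_le_mul' le_rfl (hF (n + 2))
  have hFΓ : ENNReal.ofReal (ZZ α c k ^ θ / 4) * ENNReal.ofReal (1 / ZZ α c k ^ θ) ≤ 2⁻¹ := by
    rw [← ENNReal.ofReal_mul (by positivity)]
    have e1 : ZZ α c k ^ θ / 4 * (1 / ZZ α c k ^ θ) = 1 / 4 := by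
      field_simp
    have e2 : (2⁻¹ : ℝ≥0∞) = ENNReal.ofReal (1 / 2) := by
      rw [one_div, ENNReal.ofReal_inv_of_pos (by norm_num)]
      norm_num
    rw [e1, e2]
    exact ENNReal.ofReal_le_ofReal (by norm_num)
  have hmain := hFRC K hK0 (chargeLaw μ lam h) k (k * 2 ^ S) hk hkL (GS α c k S) hG θ hθ0 hθ1
    hMole (ENNReal.ofReal (ZZ α c k ^ θ / 4)) (C * ENNReal.ofReal (ZZ α c k ^ θ / 4))
    (ENNReal.ofReal (1 / ZZ α c k ^ θ)) hF hF' hΓ hFΓ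
  obtain ⟨B, hB⟩ : ∃ B : ℝ≥0∞, B = 2 * (ENNReal.ofReal (ZZ α c k ^ θ / 4) +
    C * ENNReal.ofReal (ZZ α c k ^ θ / 4)) := ⟨_, rfl⟩
  have hBT : B ≠ ∞ := by
    rw [hB]
    exact ENNReal.mul_ne_top (by norm_num) (ENNReal.add_ne_top.2 ⟨ENNReal.ofReal_ne_top,
      ENNReal.mul_ne_top hC ENNReal.ofReal_ne_top⟩)
  have hCb : ∀ n : ℕ, 1 ≤ n → ee μ K lam h (n * k) ≤ B.toReal / θ := by
    intro n hn
    refine ee_le μ K hid lam h θ hθ0 (n * k) B.toReal ENNReal.toReal_nonneg ?_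
    calc ∫⁻ x, (Wn K (n * k) x) ^ θ ∂(iid (chargeLaw μ lam h))
        ≤ ∫⁻ x, (Psi K k n x) ^ θ ∂(iid (chargeLaw μ lam h)) :=
          lintegral_mono (fun x => ENNReal.rpow_le_rpow (Wn_le_Psi K k hk n x) hθ0.le)
      _ ≤ B := by
          rw [hB]
          exact hmain n hn
      _ = ENNReal.ofReal B.toReal := (ENNReal.ofReal_toReal hBT).symm
  exact nonpos_of_bound μ K hid lam h k hk _ hCb f hf

end Pool.Agent.H36.CU
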