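import Pool.Agent.H55.CU.Targets

set_option autoImplicit false

open MeasureTheory ProbabilityTheory Filter Topology
open scoped ENNReal
open Pool.Agent.H95 Pool.Agent.H95.Cop Pool.Agent.H96.Cop Pool.Agent.H55.CU

namespace Pool.Agent.H36.CU

theorem pf_STX (hMOR : T_MOR) (hMPL : T_MPL) : T_STX := by
  intro K k J hk hJ g hg ν _ θ y γ F hθ0 hθ1 hy hγ hF hFb hγb
  obtain ⟨Y, hY⟩ : ∃ Y : ℕ → ℝ≥0∞, ∀ a, Y a = ∫⁻ x, PL K k (k * (2 * J)) a x ^ θ ∂(iid ν) :=
    ⟨_, fun _ => rfl⟩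
  have hrec : ∀ a, Y a ≤ ENNReal.ofReal (y * F a) + ∑ b ∈ Finset.range (a + 1),
      ∑ j ∈ Finset.Icc J (2 * J), if b + j ≤ a then ENNReal.ofReal (y * F b) *
        ENNReal.ofReal (γ / y) * Y (a - b - j) else 0 := by
    intro a
    rw [hY]
    refine (hMOR K k J hk hJ g hg ν θ hθ0 hθ1 a).trans (add_le_add (hFb a) ?_)
    refine Finset.sum_le_sum fun b _ => Finset.sum_le_sum fun j hj => ?_
    rw [Finset.mem_Icc] at hj
    split_ifs with hbj
    · rw [hY]
      exact mul_le_mul' (mul_le_mul' (hFb b) (hγb j hj.1 hj.2)) le_rfl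
    · exact le_rfl
  have hfin : ∀ a, Y a ≠ ∞ := by
    intro a
    induction a using Nat.strong_induction_on with
    | _ a ih =>
      refine ne_top_of_le_ne_top ?_ (hrec a)
      refine ENNReal.add_ne_top.2 ⟨ENNReal.ofReal_ne_top, ENNReal.sum_ne_top.2 fun b _ =>
        ENNReal.sum_ne_top.2 fun j hj => ?_⟩
      rw [Finset.mem_Icc] at hj
      split_ifs with hbj
      · exact ENNReal.mul_ne_top (ENNReal.mul_ne_top ENNReal.ofReal_ne_top ENNReal.ofReal_ne_top)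
          (ih _ (by omega))
      · exact ENNReal.zero_ne_top
  obtain ⟨X, hX⟩ : ∃ X : ℕ → ℝ, ∀ a, X a = (Y a).toReal / y := ⟨_, fun _ => rfl⟩
  have hX0 : ∀ a, 0 ≤ X a := fun a => by
    rw [hX]
    exact div_nonneg ENNReal.toReal_nonneg hy.le
  have hYX : ∀ a, Y a = ENNReal.ofReal (y * X a) := by
    intro a
    rw [hX, mul_div_cancel₀ _ hy.ne', ENNReal.ofReal_toReal (hfin a)]
  refine ⟨X, hX0, fun a => ?_, fun a => by rw [← hY, hYX]⟩
  obtain ⟨t, ht⟩ : ∃ t : ℕ → ℕ → ℝ, ∀ b j, t b j =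
      if b + j ≤ a then F b * γ * X (a - b - j) else 0 := ⟨_, fun _ _ => rfl⟩
  have ht0 : ∀ b j, 0 ≤ t b j := by
    intro b j
    rw [ht]
    split_ifs
    · exact mul_nonneg (mul_nonneg (hF b) hγ) (hX0 _)
    · exact le_rfl
  have e1 : ∑ b ∈ Finset.range (a + 1), ∑ j ∈ Finset.Icc J (2 * J),
      (if b + j ≤ a then F b * γ * X (a - b - j) else 0) =
      ∑ b ∈ Finset.range (a + 1), ∑ j ∈ Finset.Icc J (2 * J), t b j :=
    Finset.sum_congr rfl fun b _ => Finset.sum_congr rfl fun j _ => (ht b j).symm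
  rw [e1]
  have hnn : 0 ≤ F a + ∑ b ∈ Finset.range (a + 1), ∑ j ∈ Finset.Icc J (2 * J), t b j :=
    add_nonneg (hF a) (Finset.sum_nonneg fun b _ => Finset.sum_nonneg fun j _ => ht0 b j)
  have h1 : ENNReal.ofReal (y * X a) ≤ ENNReal.ofReal
      (y * (F a + ∑ b ∈ Finset.range (a + 1), ∑ j ∈ Finset.Icc J (2 * J), t b j)) := by
    rw [← hYX, mul_add, ENNReal.ofReal_add (mul_nonneg hy.le (hF a)) (mul_nonneg hy.le
      (Finset.sum_nonneg fun b _ => Finset.sum_nonneg fun j _ => ht0 b j)), Finset.mul_sum,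
      ENNReal.ofReal_sum_of_nonneg (fun b _ => mul_nonneg hy.le
        (Finset.sum_nonneg fun j _ => ht0 b j))]
    refine (hrec a).trans (add_le_add le_rfl ?_)
    refine Finset.sum_le_sum fun b _ => ?_
    rw [Finset.mul_sum, ENNReal.ofReal_sum_of_nonneg (fun j _ => mul_nonneg hy.le (ht0 b j))]
    refine Finset.sum_le_sum fun j hj => ?_
    rw [ht]
    split_ifs with hbj
    · rw [hYX, ← ENNReal.ofReal_mul (mul_nonneg hy.le (hF b)),
        ← ENNReal.ofReal_mul (mul_nonneg (mul_nonneg hy.le (hF b)) (div_nonneg hγ hy.le))]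
      refine ENNReal.ofReal_le_ofReal (le_of_eq ?_)
      field_simp
    · exact zero_le
  rw [ENNReal.ofReal_le_ofReal_iff (mul_nonneg hy.le hnn)] at h1
  exact le_of_mul_le_mul_left h1 hy

end Pool.Agent.H36.CU
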